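import Pool.Agent.Q22.FinSyl

/-! Transitive Sylow p-subgroups of finitary permutation groups map onto Sylow p-subgroups of
quotient groups. -/

namespace Pool.Agent.Results.MP_055c61_al.SylowQuotient

/-- Let `G` be a group of finitary permutations of a set `Ω`, `N` a normal subgroup of `G` and `S`
a Sylow `p`-subgroup of `G` (a maximal `p`-subgroup) which is transitive on `Ω`. Then the image
`SN/N` of `S` in `G/N` is a Sylow `p`-subgroup of `G/N`. -/
theorem result :
    ∀ (p : ℕ) [Fact p.Prime] (Ω : Type*) (G : Subgroup (Equiv.Perm Ω)),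
      (∀ g ∈ G, {x : Ω | g x ≠ x}.Finite) →
      ∀ (N : Subgroup G) [N.Normal] (S : Sylow p G),
        (∀ x y : Ω, ∃ s : G, s ∈ S ∧ (s : Equiv.Perm Ω) x = y) →
        ∃ P : Sylow p (G ⧸ N),
          (P : Subgroup (G ⧸ N)) = (S : Subgroup G).map (QuotientGroup.mk' N) := by
  intro p _ Ω G hG N _ S hS
  exact Q22.FinSyl.map_sylow (G := G) (Ω := Ω) (fun g => hG g g.2) S
    (fun x y => hS x y) N

end Pool.Agent.Results.MP_055c61_al.SylowQuotient
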